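import Pool.Agent.helper22.GS.Spec

set_option autoImplicit false

namespace Pool.Agent.GS

open Module

theorem FL (hMX : MX_stmt) (hLB : LB_stmt) : FL_stmt := by
  intro n F _ _ hn t w a ht k r hr hrF hG
  obtain ⟨hAlt, hfr, φ, hφi, hφr, hφv, -⟩ := hMX n F hn
  obtain ⟨g, hg⟩ := hG
  have hsurj : ∀ i, ∃ g' : Matrix.symplecticGroup (Fin n) F,
      (QuotientGroup.mk g' : PSp n F) = g i := fun i => QuotientGroup.mk_surjective (g i)
  choose g' hg' using hsurj
  have hφt : φ t = tv (BJ n F) w a := by
    ext1 v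
    rw [hφv, ht]
  let K : Subgroup (Matrix.symplecticGroup (Fin n) F) :=
    Subgroup.closure (Set.range fun i => g' i * t * (g' i)⁻¹)
  let c : Matrix.symplecticGroup (Fin n) F →* MulAut (PSp n F) :=
    (MulAut.conj : PSp n F →* MulAut (PSp n F)).comp
      (QuotientGroup.mk' (Subgroup.center (Matrix.symplecticGroup (Fin n) F)))
  have h1 : K.map c = Subgroup.closure (Set.range fun i =>
      MulAut.conj (g i) * MulAut.conj (QuotientGroup.mk t : PSp n F) * (MulAut.conj (g i))⁻¹) := by
    rw [MonoidHom.map_closure, ← Set.range_comp]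
    congr 1
    congr 1
    funext i
    simp only [Function.comp, map_mul, map_inv]
    have : c (g' i) = MulAut.conj (g i) := by
      rw [← hg' i]; rfl
    rw [this]
    rfl
  have h2 : r ∣ Nat.card K := by
    rw [← h1] at hg
    exact hg.trans (Subgroup.card_map_dvd K c)
  have h3 : K.map φ = Subgroup.closure (Set.range fun i =>
      φ (g' i) * tv (BJ n F) w a * (φ (g' i))⁻¹) := by
    rw [MonoidHom.map_closure, ← Set.range_comp]
    congr 1
    congr 1
    funext i
    simp only [Function.comp, map_mul, map_inv, hφt]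
  have h4 : Nat.card (K.map φ) = Nat.card K :=
    (Nat.card_congr (K.equivMapOfInjective φ hφi).toEquiv).symm
  refine hLB (BJ n F) hAlt w a k (fun i => φ (g' i)) (fun i => ?_) r hr hrF ?_
  · rw [← hφr]; exact ⟨g' i, rfl⟩
  · rw [← h3, h4]; exact h2

end Pool.Agent.GS
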